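import Pool.Agent.Helper67.SDet.Block

/-!
# The reduction for the blocks of the sums of determinants
-/

set_option autoImplicit false

namespace Pool.Agent.SDet

open Finset Matrix MvPolynomial Pool.SDL

/-- A permanent with different index sets is an ordinary permanent. -/
theorem rper_eq {R I J : Type*} [CommRing R] [Fintype I] [DecidableEq I] [Fintype J]
    [DecidableEq J] (ε : J ≃ I) (M : I → J → R) :
    rper M = (Matrix.of fun i j => M (ε i) j).permanent := by
  unfold rper Matrix.permanent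
  symm
  let F : Equiv.Perm J ≃ (I ≃ J) :=
    { toFun := fun σ => (σ.trans ε).symm
      invFun := fun e => e.symm.trans ε.symm
      left_inv := fun σ => by ext x; simp
      right_inv := fun e => by ext x; simp }
  refine Fintype.sum_equiv F _ _ fun σ => ?_
  rw [← Equiv.prod_comp (σ.trans ε)]
  refine Finset.prod_congr rfl fun j _ => ?_
  simp [F]

section general

universe u

variable {K : Type u} [Field K]

/-- The remaining rows are as many as the columns. -/
noncomputable def eC (N a : ℕ) (k : Fin (a + 1)) :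
    (Fin N ⊕ Fin a) ≃ {i : Fin N ⊕ Fin (a + 1) // i ≠ Sum.inr k} :=
  Fintype.equivOfCardEq (by
    rw [Fintype.card_subtype_compl]
    simp)

/-- The special rows, seen as additional rows. -/
noncomputable def eK (N a : ℕ) (k : Fin (a + 1)) : Option (Fin N ⊕ Fin a) ≃ Fin N ⊕ Fin (a + 1) :=
  (Equiv.optionCongr (eC N a k)).trans (Equiv.optionSubtypeNe (Sum.inr k))

theorem eK_none (N a : ℕ) (k : Fin (a + 1)) : eK N a k none = Sum.inr k := by
  simp [eK]

theorem eK_some (N a : ℕ) (k : Fin (a + 1)) (i) : eK N a k (some i) = (eC N a k i).1 := by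
  simp [eK]

theorem bp_eq (N a : ℕ) (k : Fin (a + 1)) :
    bp K N a k = (Matrix.of fun (i j : Fin N ⊕ Fin a) =>
      tall K N a (eK N a k (some i)) j).permanent := by
  rw [bp, rper_eq (eC N a k)]
  simp only [eK_some]

theorem tall_totalDegree (N a : ℕ) (i j) : (tall K N a i j).totalDegree ≤ 1 := by
  rcases i with i | i <;> rcases j with j | j
  · exact (totalDegree_X (R := K) _).le
  · exact (totalDegree_X (R := K) _).le
  · exact (totalDegree_X (R := K) _).le
  · refine (totalDegree_mul _ _).trans ?_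
    rw [totalDegree_C, zero_add]
    exact (totalDegree_X (R := K) _).le

/-- The tall blocks. -/
noncomputable def TT (K : Type u) [Field K] (D N a : ℕ) (b : Fin D) :
    Matrix (Fin N ⊕ Fin (a + 1)) (Fin N ⊕ Fin a)
      (MvPolynomial ((Fin D ⊕ Fin D) × Option (Fin N)) K) :=
  Matrix.of fun i j => rename (fun v => (Sum.inl b, v)) (tall K N a i j)

/-- The wide blocks. -/
noncomputable def WW (K : Type u) [Field K] (D N a : ℕ) (b : Fin D) :
    Matrix (Fin N ⊕ Fin a) (Fin N ⊕ Fin (a + 1))
      (MvPolynomial ((Fin D ⊕ Fin D) × Option (Fin N)) K) :=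
  Matrix.of fun i j => rename (fun v => (Sum.inr b, v)) (tall K N a j i)

/-- The coefficient polynomial `G_k(f)` of a polynomial `f` in the entries of the generic matrix:
the mixed derivative at the corners `k`, restricted to the block matrix. -/
noncomputable def GG {n D N a k0 : ℕ}
    (E : Fin n ≃ (((Fin N ⊕ Fin (a + 1)) ⊕ (Fin N ⊕ Fin a)) × Fin D) ⊕ Fin k0)
    (k : (Fin D ⊕ Fin D) → Fin (a + 1)) :
    MvPolynomial (Fin n × Fin n) K →ₗ[K]
      MvPolynomial ((Fin D ⊕ Fin D) × Option (Fin N)) K :=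
  Gm E (fun b => eK N a (k (Sum.inl b)) none) (fun b => eK N a (k (Sum.inr b)) none)
    (TT K D N a) (WW K D N a)

theorem GG_det {K : Type} [Field K] {n D N a k0 m : ℕ}
    (E : Fin n ≃ (((Fin N ⊕ Fin (a + 1)) ⊕ (Fin N ⊕ Fin a)) × Fin D) ⊕ Fin k0)
    (k : (Fin D ⊕ Fin D) → Fin (a + 1))
    (A : Matrix (Fin m) (Fin m) (MvPolynomial (Fin n × Fin n) K))
    (hA : ∀ i j, (A i j).totalDegree ≤ 1) :
    GG E k A.det ∈ detSpan (resM E (TT K D N a) (WW K D N a) A) (m - D) :=
  Gm_det_mem E _ _ _ _
    (fun _ _ _ => (totalDegree_rename_le _ _).trans (tall_totalDegree _ _ _ _))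
    (fun _ _ _ => (totalDegree_rename_le _ _).trans (tall_totalDegree _ _ _ _)) A hA

theorem GG_perm {n D N a k0 : ℕ}
    (E : Fin n ≃ (((Fin N ⊕ Fin (a + 1)) ⊕ (Fin N ⊕ Fin a)) × Fin D) ⊕ Fin k0)
    (k : (Fin D ⊕ Fin D) → Fin (a + 1)) :
    GG E k (Matrix.of fun i j : Fin n =>
      (X (i, j) : MvPolynomial (Fin n × Fin n) K)).permanent =
      ∏ b, rename (fun v => (b, v)) (bp K N a (k b)) := by
  rw [GG, Gm_perm, Fintype.prod_sum_type, Finset.prod_mul_distrib]
  congr 1
  · refine Finset.prod_congr rfl fun b _ => ?_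
    rw [bp_eq]
    simp [Matrix.permanent, map_sum, map_prod, TT]
  · refine Finset.prod_congr rfl fun b _ => ?_
    rw [bp_eq, ← Matrix.permanent_transpose]
    simp [Matrix.permanent, map_sum, map_prod, WW]

/-- The permanent of the superblock matrix; the substitution with `0` in the corners does not
depend on the choice of the omitted special rows and columns. -/
theorem R1 {n D N a : ℕ} (hn : D * (2 * (N + a) + 1) ≤ n) :
    ∃ (φ0 : Fin n × Fin n → MvPolynomial ((Fin D ⊕ Fin D) × Option (Fin N)) K)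
      (φ : ((Fin D ⊕ Fin D) → Fin (a + 1)) → Fin n × Fin n →
        MvPolynomial (((Fin D ⊕ Fin D) × Option (Fin N)) ⊕ Fin D) K),
      (∀ k x, (φ k x).totalDegree ≤ 1) ∧
      (∀ k x, aeval (Sum.elim X 0 : _ → MvPolynomial ((Fin D ⊕ Fin D) × Option (Fin N)) K)
        (φ k x) = φ0 x) ∧
      ∀ k, aeval (φ k) (Matrix.of fun i j => (X (i, j) : MvPolynomial (Fin n × Fin n) K)).permanent =
        rename Sum.inl (∏ b, rename (fun v => (b, v)) (Pool.SDL.bp K N a (k b))) *
          ∏ i : Fin D, X (Sum.inr i) := by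
  obtain ⟨k0, hk0⟩ := Nat.exists_eq_add_of_le hn
  have hcard : Fintype.card (Fin n) = Fintype.card
      ((((Fin N ⊕ Fin (a + 1)) ⊕ (Fin N ⊕ Fin a)) × Fin D) ⊕ Fin k0) := by
    simp only [Fintype.card_fin, Fintype.card_sum, Fintype.card_prod]
    rw [hk0]
    ring
  let E := Fintype.equivOfCardEq hcard
  have hT : ∀ b i j, (TT K D N a b i j).totalDegree ≤ 1 :=
    fun _ _ _ => (totalDegree_rename_le _ _).trans (tall_totalDegree _ _ _ _)
  have hW : ∀ b i j, (WW K D N a b i j).totalDegree ≤ 1 :=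
    fun _ _ _ => (totalDegree_rename_le _ _).trans (tall_totalDegree _ _ _ _)
  refine ⟨fun x => big0 (k := k0) (TT K D N a) (WW K D N a) (E x.1) (E x.2),
    fun k x => bigX (k := k0) (fun b => eK N a (k (Sum.inl b)) none)
      (fun b => eK N a (k (Sum.inr b)) none) (TT K D N a) (WW K D N a) (E x.1) (E x.2),
    fun k x => bigX_totalDegree _ _ _ _ hT hW _ _, fun k x => eps_bigX _ _ _ _ _ _, fun k => ?_⟩
  rw [aeval_perm]
  have h2 : (Matrix.of fun i j => bigX (k := k0) (fun b => eK N a (k (Sum.inl b)) none)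
      (fun b => eK N a (k (Sum.inr b)) none) (TT K D N a) (WW K D N a) (E i) (E j)) =
      (bigX (k := k0) (fun b => eK N a (k (Sum.inl b)) none)
      (fun b => eK N a (k (Sum.inr b)) none) (TT K D N a) (WW K D N a)).submatrix E E := by
    ext i j; rfl
  rw [h2, perm_submatrix, perm_bigX, mul_comm]
  congr 2
  rw [Fintype.prod_sum_type, Finset.prod_mul_distrib]
  congr 1
  · refine Finset.prod_congr rfl fun b _ => ?_
    rw [bp_eq]
    simp [Matrix.permanent, map_sum, map_prod, TT]
  · refine Finset.prod_congr rfl fun b _ => ?_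
    rw [bp_eq, ← Matrix.permanent_transpose]
    simp [Matrix.permanent, map_sum, map_prod, WW]

end general

end Pool.Agent.SDet

namespace Pool.SDL

open MvPolynomial Finset Pool.Agent.SDet
open scoped BigOperators ENNReal

variable {K : Type} [Field K]

/-- The coefficient polynomials of the block restriction: there is a family of linear functionals
`G k` such that the permanent goes to the products of block subpermanents, and the determinant of
an affine matrix `A` goes to the span of the minors of size `m - D` of one affine matrix. -/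
theorem R_general {n D N a : ℕ} (hn : D * (2 * (N + a) + 1) ≤ n) :
    ∃ G : ((Fin D ⊕ Fin D) → Fin (a + 1)) → MvPolynomial (Fin n × Fin n) K →ₗ[K]
        MvPolynomial ((Fin D ⊕ Fin D) × Option (Fin N)) K,
      (∀ k, G k (Matrix.of fun i j : Fin n =>
        (X (i, j) : MvPolynomial (Fin n × Fin n) K)).permanent =
          ∏ b, rename (fun v => (b, v)) (bp K N a (k b))) ∧
      ∀ (m : ℕ) (A : Matrix (Fin m) (Fin m) (MvPolynomial (Fin n × Fin n) K)),
        (∀ i j, (A i j).totalDegree ≤ 1) →
        ∃ L : Matrix (Fin m) (Fin m) (MvPolynomial ((Fin D ⊕ Fin D) × Option (Fin N)) K),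
          (∀ i j, (L i j).totalDegree ≤ 1) ∧ ∀ k, G k A.det ∈ detSpan L (m - D) := by
  obtain ⟨k0, hk0⟩ := Nat.exists_eq_add_of_le hn
  have hcard : Fintype.card (Fin n) = Fintype.card
      ((((Fin N ⊕ Fin (a + 1)) ⊕ (Fin N ⊕ Fin a)) × Fin D) ⊕ Fin k0) := by
    simp only [Fintype.card_fin, Fintype.card_sum, Fintype.card_prod]
    rw [hk0]
    ring
  let E := Fintype.equivOfCardEq hcard
  refine ⟨fun k => GG E k, fun k => GG_perm E k, fun m A hA => ?_⟩
  refine ⟨resM E (TT K D N a) (WW K D N a) A, ?_, fun k => GG_det E k A hA⟩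
  exact fun i j => resM_totalDegree E _ _
    (fun _ _ _ => (totalDegree_rename_le _ _).trans (tall_totalDegree _ _ _ _))
    (fun _ _ _ => (totalDegree_rename_le _ _).trans (tall_totalDegree _ _ _ _)) A hA i j

/-- The reduction. `D` superblocks, `2 D` blocks, `s = N + a`. -/
theorem R_reduction {n m t D N a : ℕ} (s : Fin t → ℕ) (hs : ∀ i, s i ≤ m)
    (A : ∀ i, Matrix (Fin (s i)) (Fin (s i)) (MvPolynomial (Fin n × Fin n) K))
    (hA : ∀ i p q, (A i p q).totalDegree ≤ 1)
    (h : (Matrix.of fun i j => (X (i, j) : MvPolynomial (Fin n × Fin n) K)).permanent =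
      ∑ i, (A i).det)
    (hn : D * (2 * (N + a) + 1) ≤ n) (_hDm : D ≤ m) :
    ∃ L : Fin t → Matrix (Fin m) (Fin m)
        (MvPolynomial ((Fin D ⊕ Fin D) × Option (Fin N)) K),
      (∀ i p q, (L i p q).totalDegree ≤ 1) ∧
      ∀ k : (Fin D ⊕ Fin D) → Fin (a + 1),
        ∏ b, rename (fun v => (b, v)) (bp K N a (k b)) ∈ ⨆ i, detSpan (L i) (m - D) := by
  obtain ⟨G, hG1, hG2⟩ := R_general (K := K) hn
  choose A' hA' hdet using fun i => exists_pad (hs i) (A i) (hA i)
  choose L hL1 hL2 using fun i => hG2 m (A' i) (hA' i)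
  refine ⟨L, hL1, fun k => ?_⟩
  rw [← hG1 k, h, map_sum]
  refine Submodule.sum_mem _ fun i _ => Submodule.mem_iSup_of_mem i ?_
  rw [← hdet i]
  exact hL2 i k

end Pool.SDL
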