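import Pool.Agent.SDet.Defs

/-!
# The span of the minors of a given size, and derivatives of determinants
-/

set_option autoImplicit false

namespace Pool.Agent.SDet

open Finset Matrix

universe u v

variable {K : Type u} [Field K]

section deriv

variable {R : Type*} [CommRing R] [Algebra K R]

/-- The `K`-span of the minors of size `p` of the matrix `A`. -/
def Mn (K : Type u) [Field K] {R : Type*} [CommRing R] [Algebra K R] {m : ℕ}
    (A : Matrix (Fin m) (Fin m) R) (p : ℕ) : Submodule K R :=
  Submodule.span K {x | ∃ f g : Fin p → Fin m, StrictMono f ∧ StrictMono g ∧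
    x = (A.submatrix f g).det}

theorem mem_Mn {m : ℕ} (A : Matrix (Fin m) (Fin m) R) {p : ℕ} {f g : Fin p → Fin m}
    (hf : StrictMono f) (hg : StrictMono g) :
    (A.submatrix f g).det ∈ Mn K A p := Submodule.subset_span ⟨f, g, hf, hg, rfl⟩

theorem deriv_prod {ι : Type*} [DecidableEq ι] (δ : Derivation K R R) (s : Finset ι) (f : ι → R) :
    δ (∏ i ∈ s, f i) = ∑ i ∈ s, (∏ j ∈ s.erase i, f j) * δ (f i) := by
  induction s using Finset.induction_on with
  | empty => simp
  | insert a s ha ih =>
    rw [Finset.prod_insert ha, Derivation.leibniz, ih, Finset.sum_insert ha,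
      Finset.erase_insert ha]
    simp only [smul_eq_mul]
    rw [add_comm, Finset.mul_sum]
    congr 1
    refine Finset.sum_congr rfl fun i hi => ?_
    have hne : a ≠ i := fun h => ha (h ▸ hi)
    rw [Finset.erase_insert_of_ne hne, Finset.prod_insert (fun h => ha (Finset.mem_of_mem_erase h)),
      mul_assoc]

/-- The derivative of a determinant, column by column. -/
theorem deriv_det {p : ℕ} (δ : Derivation K R R) (M : Matrix (Fin p) (Fin p) R) :
    δ M.det = ∑ j, (M.updateCol j fun i => δ (M i j)).det := by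
  classical
  simp only [Matrix.det_apply]
  rw [map_sum, Finset.sum_comm]
  refine Finset.sum_congr rfl fun σ _ => ?_
  rw [← Finset.smul_sum]
  have h1 : δ (Equiv.Perm.sign σ • ∏ i, M (σ i) i) = Equiv.Perm.sign σ • δ (∏ i, M (σ i) i) := by
    rcases Int.units_eq_one_or (Equiv.Perm.sign σ) with h | h <;> rw [h] <;> simp
  rw [h1, deriv_prod]
  congr 1
  refine Finset.sum_congr rfl fun i hi => ?_
  rw [← Finset.mul_prod_erase _ _ hi, mul_comm]
  congr 1
  · simp
  · refine Finset.prod_congr rfl fun k hk => ?_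
    rw [Matrix.updateCol_ne (Finset.ne_of_mem_erase hk)]

theorem deriv_det_mem {m p : ℕ} (A : Matrix (Fin m) (Fin m) R) (δ : Derivation K R R)
    (h : ∀ i j, ∃ c : K, δ (A i j) = algebraMap K R c) {f g : Fin p → Fin m}
    (hf : StrictMono f) (hg : StrictMono g) :
    δ (A.submatrix f g).det ∈ Mn K A (p - 1) := by
  rw [deriv_det]
  refine Submodule.sum_mem _ fun j _ => ?_
  cases p with
  | zero => exact j.elim0
  | succ p =>
    rw [Matrix.det_succ_column _ j]
    refine Submodule.sum_mem _ fun i _ => ?_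
    rw [Matrix.updateCol_self, Matrix.submatrix_updateCol_succAbove]
    obtain ⟨c, hc⟩ := h (f i) (g j)
    rw [Matrix.submatrix_apply, hc, Matrix.submatrix_submatrix]
    have := Submodule.smul_mem (Mn K A p) ((-1) ^ (i + j : ℕ) * c)
      (mem_Mn (K := K) A (hf.comp (Fin.strictMono_succAbove i))
        (hg.comp (Fin.strictMono_succAbove j)))
    rw [Algebra.smul_def] at this
    simpa using this

theorem deriv_mem {m p : ℕ} (A : Matrix (Fin m) (Fin m) R) (δ : Derivation K R R)
    (h : ∀ i j, ∃ c : K, δ (A i j) = algebraMap K R c) {x : R} (hx : x ∈ Mn K A p) :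
    δ x ∈ Mn K A (p - 1) := by
  induction hx using Submodule.span_induction with
  | mem x hx => obtain ⟨f, g, hf, hg, rfl⟩ := hx; exact deriv_det_mem A δ h hf hg
  | zero => rw [map_zero]; exact Submodule.zero_mem _
  | add x y _ _ hx hy => rw [map_add]; exact Submodule.add_mem _ hx hy
  | smul a x _ hx => rw [Derivation.map_smul]; exact Submodule.smul_mem _ _ hx

theorem det_mem_Mn {m : ℕ} (A : Matrix (Fin m) (Fin m) R) : A.det ∈ Mn K A m := by
  simpa using mem_Mn (K := K) A strictMono_id strictMono_id

/-- Algebra homomorphisms map minors to minors. -/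
theorem map_Mn {S : Type*} [CommRing S] [Algebra K S] (φ : R →ₐ[K] S) {m p : ℕ}
    (A : Matrix (Fin m) (Fin m) R) {x : R} (hx : x ∈ Mn K A p) :
    φ x ∈ Mn K (A.map φ) p := by
  induction hx using Submodule.span_induction with
  | mem x hx =>
    obtain ⟨f, g, hf, hg, rfl⟩ := hx
    rw [AlgHom.map_det]
    exact mem_Mn (K := K) (A.map φ) hf hg
  | zero => rw [map_zero]; exact Submodule.zero_mem _
  | add x y _ _ hx hy => rw [map_add]; exact Submodule.add_mem _ hx hy
  | smul a x _ hx => rw [map_smul]; exact Submodule.smul_mem _ _ hx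

end deriv

/-- For polynomials, `Mn` is `detSpan`. -/
theorem Mn_eq {K : Type} [Field K] {σ : Type} {m : ℕ}
    (A : Matrix (Fin m) (Fin m) (MvPolynomial σ K)) (p : ℕ) :
    Mn K A p = Pool.SDL.detSpan A p := rfl

/-- A determinant of size `s ≤ m` of affine polynomials is one of size `m`. -/
theorem exists_pad {σ : Type v} {s m : ℕ} (hs : s ≤ m)
    (A : Matrix (Fin s) (Fin s) (MvPolynomial σ K)) (hA : ∀ p q, (A p q).totalDegree ≤ 1) :
    ∃ A' : Matrix (Fin m) (Fin m) (MvPolynomial σ K),
      (∀ p q, (A' p q).totalDegree ≤ 1) ∧ A'.det = A.det := by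
  obtain ⟨k, rfl⟩ := Nat.exists_eq_add_of_le hs
  refine ⟨(Matrix.fromBlocks A 0 0 (1 : Matrix (Fin k) (Fin k) _)).submatrix
    finSumFinEquiv.symm finSumFinEquiv.symm, ?_, ?_⟩
  · intro p q
    rw [Matrix.submatrix_apply]
    rcases finSumFinEquiv.symm p with i | i <;> rcases finSumFinEquiv.symm q with j | j
    · simpa using hA i j
    · simp
    · simp
    · rw [Matrix.fromBlocks_apply₂₂, Matrix.one_apply]
      split_ifs <;> simp
  · rw [Matrix.det_submatrix_equiv_self, Matrix.det_fromBlocks_zero₂₁, Matrix.det_one, mul_one]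

end Pool.Agent.SDet
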