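import Pool.Agent.Helper67.SDet.Perm
import Pool.Agent.Helper67.SDet.Minors

/-!
# From a sum of determinants for the permanent to products of block subpermanents

A block diagonal matrix with `D` tall blocks, `D` wide blocks and an identity is substituted in the
permanent; the mixed derivative of order `D` in one entry of each zero corner gives the products of
`2 D` subpermanents, and sends a determinant of size `m` to the span of the minors of size `m - D`.
-/

set_option autoImplicit false

namespace Pool.Agent.SDet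

open Finset Matrix MvPolynomial

/-! ### the pair of a tall and a wide block -/

section pair

variable {R : Type*} [CommRing R] {ρ ρ' : Type*} [Fintype ρ] [Fintype ρ'] [DecidableEq ρ]
  [DecidableEq ρ']

/-- Renumbering of the rows. -/
def rowE (e : Option ρ' ≃ ρ) : (ρ' ⊕ Unit) ⊕ ρ' ≃ ρ ⊕ ρ' where
  toFun := Sum.elim (Sum.elim Sum.inr fun _ => Sum.inl (e none)) fun i => Sum.inl (e (some i))
  invFun := Sum.elim (fun x => (e.symm x).elim (Sum.inl (Sum.inr ())) fun i => Sum.inr i)
    fun i => Sum.inl (Sum.inl i)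
  left_inv := by rintro ((i | u) | i) <;> simp
  right_inv := by
    rintro (x | i)
    · rcases h : e.symm x with _ | i
      · simp [h, ← (Equiv.symm_apply_eq e).1 h]
      · simp [h, ← (Equiv.symm_apply_eq e).1 h]
    · simp

/-- Renumbering of the columns. -/
def colE (e : Option ρ' ≃ ρ) : (ρ' ⊕ Unit) ⊕ ρ' ≃ ρ ⊕ ρ' where
  toFun := Sum.elim (Sum.elim (fun j => Sum.inl (e (some j))) fun _ => Sum.inl (e none)) Sum.inr
  invFun := Sum.elim (fun x => (e.symm x).elim (Sum.inl (Sum.inr ())) fun i => Sum.inl (Sum.inl i))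
    fun i => Sum.inr i
  left_inv := by rintro ((i | u) | i) <;> simp
  right_inv := by
    rintro (x | i)
    · rcases h : e.symm x with _ | i
      · simp [h, ← (Equiv.symm_apply_eq e).1 h]
      · simp [h, ← (Equiv.symm_apply_eq e).1 h]
    · simp

/-- The pair of blocks with the entry `y` in the corner. -/
def pairM (i0 j0 : ρ) (y : R) (T : Matrix ρ ρ' R) (W : Matrix ρ' ρ R) :
    Matrix (ρ ⊕ ρ') (ρ ⊕ ρ') R :=
  Matrix.fromBlocks (Matrix.of fun i j => if i = i0 ∧ j = j0 then y else 0) T W 0

theorem perm_pairM (e e' : Option ρ' ≃ ρ) (y : R) (T : Matrix ρ ρ' R) (W : Matrix ρ' ρ R) :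
    (pairM (e none) (e' none) y T W).permanent =
      y * ((T.submatrix (fun i => e (some i)) id).permanent *
        (W.submatrix id fun j => e' (some j)).permanent) := by
  classical
  rw [← perm_submatrix (rowE e) (colE e') (pairM (e none) (e' none) y T W)]
  have h : (pairM (e none) (e' none) y T W).submatrix (rowE e) (colE e') =
      Matrix.fromBlocks
        (Matrix.fromBlocks (W.submatrix id fun j => e' (some j))
          (Matrix.of fun i (_ : Unit) => W i (e' none)) 0 (Matrix.of fun _ _ : Unit => y))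
        (Matrix.of fun i j => Sum.elim (fun _ => (0 : R)) (fun _ => T (e none) j) i)
        0 (T.submatrix (fun i => e (some i)) id) := by
    ext a b
    rcases a with (i | u) | i <;> rcases b with (j | v) | j <;>
      simp [pairM, rowE, colE]
  rw [h, perm_fromBlocks, perm_fromBlocks,
    Matrix.permanent_unique (Matrix.of fun _ _ : Unit => y)]
  simp only [Matrix.of_apply]
  ring

/-- The whole matrix. -/
def bigM {D k : ℕ} (P : Fin D → Matrix (ρ ⊕ ρ') (ρ ⊕ ρ') R) :
    Matrix (((ρ ⊕ ρ') × Fin D) ⊕ Fin k) (((ρ ⊕ ρ') × Fin D) ⊕ Fin k) R :=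
  Matrix.fromBlocks (Matrix.blockDiagonal P) 0 0 1

theorem perm_bigM {D k : ℕ} (P : Fin D → Matrix (ρ ⊕ ρ') (ρ ⊕ ρ') R) :
    (bigM (k := k) P).permanent = ∏ b, (P b).permanent := by
  rw [bigM, perm_fromBlocks, perm_blockDiagonal, Matrix.permanent_one, mul_one]

end pair

/-! ### polynomials -/

section poly

universe u v

variable {K : Type u} [Field K] {τ : Type v}

theorem pderiv_affine (v : τ) (p : MvPolynomial τ K) (hp : p.totalDegree ≤ 1) :
    ∃ c : K, pderiv v p = algebraMap K (MvPolynomial τ K) c := by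
  classical
  refine ⟨∑ s ∈ p.support, if s = Finsupp.single v 1 then coeff s p else 0, ?_⟩
  conv_lhs => rw [p.as_sum]
  rw [map_sum, map_sum]
  refine Finset.sum_congr rfl fun s hs => ?_
  rw [pderiv_monomial, MvPolynomial.algebraMap_eq]
  have h1 : (s.sum fun _ a => a) ≤ 1 := (le_totalDegree hs).trans hp
  by_cases h0 : s v = 0
  · rw [h0, Nat.cast_zero, mul_zero, map_zero, if_neg, map_zero]
    rintro rfl
    simp at h0
  · have h2 : s = Finsupp.single v 1 := by
      ext w
      by_cases hw : w = v
      · subst hw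
        rw [Finsupp.single_eq_same]
        have : s w ≤ s.sum fun _ a => a := by
          rw [Finsupp.sum]
          exact Finset.single_le_sum (f := fun i => s i) (fun _ _ => Nat.zero_le _)
            (Finsupp.mem_support_iff.2 h0)
        omega
      · rw [Finsupp.single_eq_of_ne hw]
        by_contra hne
        have : s v + s w ≤ s.sum fun _ a => a := by
          rw [Finsupp.sum]
          rw [← Finset.sum_pair (f := fun i => s i) (Ne.symm hw)]
          refine Finset.sum_le_sum_of_subset ?_
          intro x hx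
          simp only [Finset.mem_insert, Finset.mem_singleton] at hx
          rcases hx with rfl | rfl
          · exact Finsupp.mem_support_iff.2 h0
          · exact Finsupp.mem_support_iff.2 hne
        omega
    rw [if_pos h2, h2, tsub_self]
    simp

theorem totalDegree_aeval_le' {σ ι : Type*} (f : σ → MvPolynomial ι K)
    (hf : ∀ q, (f q).totalDegree ≤ 1) (p : MvPolynomial σ K) :
    (aeval f p).totalDegree ≤ p.totalDegree := by
  conv_lhs => rw [p.as_sum]
  rw [map_sum]
  refine totalDegree_finsetSum_le fun s hs => ?_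
  rw [aeval_monomial, algebraMap_eq]
  refine (totalDegree_mul _ _).trans ?_
  rw [totalDegree_C, zero_add]
  refine le_trans ?_ (le_totalDegree hs)
  rw [Finsupp.prod, Finsupp.sum]
  refine (totalDegree_finsetProd _ _).trans (Finset.sum_le_sum fun i _ => ?_)
  refine (totalDegree_pow _ _).trans ?_
  calc s i * (f i).totalDegree ≤ s i * 1 := Nat.mul_le_mul_left _ (hf i)
    _ = s i := mul_one _

/-- The iterated derivative. -/
noncomputable def iter {D : ℕ} (l : List (Fin D)) :
    MvPolynomial (τ ⊕ Fin D) K →ₗ[K] MvPolynomial (τ ⊕ Fin D) K :=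
  l.foldr (fun b g => (pderiv (Sum.inr b) : Derivation K _ _).toLinearMap ∘ₗ g) LinearMap.id

theorem iter_cons {D : ℕ} (b : Fin D) (l : List (Fin D)) (x : MvPolynomial (τ ⊕ Fin D) K) :
    iter (b :: l) x = pderiv (Sum.inr b) (iter l x) := rfl

theorem iter_nil {D : ℕ} (x : MvPolynomial (τ ⊕ Fin D) K) : iter ([] : List (Fin D)) x = x := rfl

theorem iter_prod {D : ℕ} (l : List (Fin D)) (hl : l.Nodup) (G : MvPolynomial (τ ⊕ Fin D) K)
    (hG : ∀ b ∈ l, pderiv (Sum.inr b) G = 0) :
    iter l ((l.map fun b => X (Sum.inr b)).prod * G) = G := by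
  induction l generalizing G with
  | nil => simp [iter_nil]
  | cons b l ih =>
    rw [List.nodup_cons] at hl
    rw [iter_cons, List.map_cons, List.prod_cons, mul_comm (X (Sum.inr b)), mul_assoc,
      ih hl.2 (X (Sum.inr b) * G)]
    · rw [Derivation.leibniz, hG b List.mem_cons_self, pderiv_X_self]
      simp
    · intro b' hb'
      have hne : b' ≠ b := fun h => hl.1 (h ▸ hb')
      rw [Derivation.leibniz, hG b' (List.mem_cons_of_mem _ hb'),
        pderiv_X_of_ne (fun h => hne (Sum.inr.inj h).symm)]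
      simp

theorem iter_mem {D m : ℕ} (l : List (Fin D))
    (A : Matrix (Fin m) (Fin m) (MvPolynomial (τ ⊕ Fin D) K))
    (hA : ∀ i j, (A i j).totalDegree ≤ 1) {p : ℕ} {x : MvPolynomial (τ ⊕ Fin D) K}
    (hx : x ∈ Mn K A p) : iter l x ∈ Mn K A (p - l.length) := by
  induction l with
  | nil => simpa [iter_nil] using hx
  | cons b l ih =>
    have h2 := deriv_mem A (pderiv (Sum.inr b)) (fun i j => pderiv_affine _ _ (hA i j)) ih
    rw [iter_cons]
    simpa [Nat.sub_sub] using h2

theorem pderiv_rename_inl {D : ℕ} (b : Fin D) (G : MvPolynomial τ K) :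
    pderiv (Sum.inr b) (rename Sum.inl G : MvPolynomial (τ ⊕ Fin D) K) = 0 := by
  classical
  refine pderiv_eq_zero_of_notMem_vars fun h => ?_
  have := vars_rename (Sum.inl : τ → τ ⊕ Fin D) G h
  simp at this

/-- The matrix with the variable `X (inr b)` in the corner `(r b, c b)` of the pair `b`. -/
noncomputable def bigX {ρ ρ' : Type*} [DecidableEq ρ] [DecidableEq ρ'] {D k : ℕ} (r c : Fin D → ρ)
    (T : Fin D → Matrix ρ ρ' (MvPolynomial τ K)) (W : Fin D → Matrix ρ' ρ (MvPolynomial τ K)) :
    Matrix (((ρ ⊕ ρ') × Fin D) ⊕ Fin k) (((ρ ⊕ ρ') × Fin D) ⊕ Fin k)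
      (MvPolynomial (τ ⊕ Fin D) K) :=
  bigM fun b => pairM (r b) (c b) (X (Sum.inr b)) ((T b).map (rename Sum.inl))
    ((W b).map (rename Sum.inl))

/-- The matrix with `0` in the corners. -/
noncomputable def big0 {ρ ρ' : Type*} [DecidableEq ρ] [DecidableEq ρ'] {D k : ℕ}
    (T : Fin D → Matrix ρ ρ' (MvPolynomial τ K)) (W : Fin D → Matrix ρ' ρ (MvPolynomial τ K)) :
    Matrix (((ρ ⊕ ρ') × Fin D) ⊕ Fin k) (((ρ ⊕ ρ') × Fin D) ⊕ Fin k) (MvPolynomial τ K) :=
  bigM fun b => Matrix.fromBlocks 0 (T b) (W b) 0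

/-- The new variables are set to `0`. -/
noncomputable def eps (K : Type u) [Field K] (τ : Type v) (D : ℕ) :
    MvPolynomial (τ ⊕ Fin D) K →ₐ[K] MvPolynomial τ K :=
  aeval (Sum.elim X fun _ => 0)

theorem eps_rename {D : ℕ} (G : MvPolynomial τ K) : eps K τ D (rename Sum.inl G) = G := by
  rw [eps, aeval_rename]
  have : (Sum.elim X fun _ => 0) ∘ (Sum.inl : τ → τ ⊕ Fin D) = (X : τ → MvPolynomial τ K) := by
    funext x; rfl
  rw [this, aeval_X_left_apply]

variable {ρ ρ' : Type*} [DecidableEq ρ] [DecidableEq ρ']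

theorem bigX_totalDegree {D k : ℕ} (r c : Fin D → ρ)
    (T : Fin D → Matrix ρ ρ' (MvPolynomial τ K)) (W : Fin D → Matrix ρ' ρ (MvPolynomial τ K))
    (hT : ∀ b i j, (T b i j).totalDegree ≤ 1) (hW : ∀ b i j, (W b i j).totalDegree ≤ 1) (x y) :
    (bigX (k := k) r c T W x y).totalDegree ≤ 1 := by
  rcases x with ⟨i, b⟩ | x <;> rcases y with ⟨j, b'⟩ | y
  · simp only [bigX, bigM, Matrix.fromBlocks_apply₁₁, Matrix.blockDiagonal_apply]
    split_ifs with hb
    · rcases i with i | i <;> rcases j with j | j
      · simp only [pairM, Matrix.fromBlocks_apply₁₁, Matrix.of_apply]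
        split_ifs
        · exact (totalDegree_X (R := K) _).le
        · simp
      · simp only [pairM, Matrix.fromBlocks_apply₁₂, Matrix.map_apply]
        exact (totalDegree_rename_le _ _).trans (hT _ _ _)
      · simp only [pairM, Matrix.fromBlocks_apply₂₁, Matrix.map_apply]
        exact (totalDegree_rename_le _ _).trans (hW _ _ _)
      · simp [pairM]
    · simp
  · simp [bigX, bigM]
  · simp [bigX, bigM]
  · simp only [bigX, bigM, Matrix.fromBlocks_apply₂₂, Matrix.one_apply]
    split_ifs <;> simp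

theorem big0_totalDegree {D k : ℕ}
    (T : Fin D → Matrix ρ ρ' (MvPolynomial τ K)) (W : Fin D → Matrix ρ' ρ (MvPolynomial τ K))
    (hT : ∀ b i j, (T b i j).totalDegree ≤ 1) (hW : ∀ b i j, (W b i j).totalDegree ≤ 1) (x y) :
    (big0 (k := k) T W x y).totalDegree ≤ 1 := by
  rcases x with ⟨i, b⟩ | x <;> rcases y with ⟨j, b'⟩ | y
  · simp only [big0, bigM, Matrix.fromBlocks_apply₁₁, Matrix.blockDiagonal_apply]
    split_ifs with hb
    · rcases i with i | i <;> rcases j with j | j
      · simp
      · simpa using hT _ _ _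
      · simpa using hW _ _ _
      · simp
    · simp
  · simp [big0, bigM]
  · simp [big0, bigM]
  · simp only [big0, bigM, Matrix.fromBlocks_apply₂₂, Matrix.one_apply]
    split_ifs <;> simp

theorem eps_bigX {D k : ℕ} (r c : Fin D → ρ)
    (T : Fin D → Matrix ρ ρ' (MvPolynomial τ K)) (W : Fin D → Matrix ρ' ρ (MvPolynomial τ K))
    (x y) : eps K τ D (bigX (k := k) r c T W x y) = big0 (k := k) T W x y := by
  rcases x with ⟨i, b⟩ | x <;> rcases y with ⟨j, b'⟩ | y
  · simp only [big0, bigX, bigM, Matrix.fromBlocks_apply₁₁, Matrix.blockDiagonal_apply]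
    split_ifs with hb
    · rcases i with i | i <;> rcases j with j | j
      · simp only [pairM, Matrix.fromBlocks_apply₁₁, Matrix.of_apply]
        split_ifs
        · simp [eps]
        · simp
      · simp only [pairM, Matrix.fromBlocks_apply₁₂, Matrix.map_apply]
        exact eps_rename _
      · simp only [pairM, Matrix.fromBlocks_apply₂₁, Matrix.map_apply]
        exact eps_rename _
      · simp [pairM]
    · simp
  · simp [bigX, big0, bigM]
  · simp [bigX, big0, bigM]
  · simp only [bigX, big0, bigM, Matrix.fromBlocks_apply₂₂, Matrix.one_apply]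
    split_ifs <;> simp

/-- The permanent of the generic matrix under a substitution. -/
theorem aeval_perm {n : ℕ} {S : Type*} [CommRing S] [Algebra K S] (f : Fin n × Fin n → S) :
    aeval f (Matrix.of fun i j : Fin n => (X (i, j) : MvPolynomial (Fin n × Fin n) K)).permanent =
      (Matrix.of fun i j => f (i, j)).permanent := by
  simp [Matrix.permanent, map_sum, map_prod]

/-- The mixed derivative of order `D` at the corners `(r b, c b)`, restricted to the block
matrix. -/
noncomputable def Gm {n D k : ℕ} (E : Fin n ≃ ((ρ ⊕ ρ') × Fin D) ⊕ Fin k) (r c : Fin D → ρ)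
    (T : Fin D → Matrix ρ ρ' (MvPolynomial τ K)) (W : Fin D → Matrix ρ' ρ (MvPolynomial τ K)) :
    MvPolynomial (Fin n × Fin n) K →ₗ[K] MvPolynomial τ K :=
  (eps K τ D).toLinearMap ∘ₗ iter (List.finRange D) ∘ₗ
    (aeval fun p : Fin n × Fin n => bigX (k := k) r c T W (E p.1) (E p.2)).toLinearMap

/-- The affine matrix `A` restricted to the block matrix. -/
noncomputable def resM {n D k m : ℕ} (E : Fin n ≃ ((ρ ⊕ ρ') × Fin D) ⊕ Fin k)
    (T : Fin D → Matrix ρ ρ' (MvPolynomial τ K)) (W : Fin D → Matrix ρ' ρ (MvPolynomial τ K))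
    (A : Matrix (Fin m) (Fin m) (MvPolynomial (Fin n × Fin n) K)) :
    Matrix (Fin m) (Fin m) (MvPolynomial τ K) :=
  A.map (aeval fun p : Fin n × Fin n => big0 (k := k) T W (E p.1) (E p.2))

theorem resM_totalDegree {n D k m : ℕ} (E : Fin n ≃ ((ρ ⊕ ρ') × Fin D) ⊕ Fin k)
    (T : Fin D → Matrix ρ ρ' (MvPolynomial τ K)) (W : Fin D → Matrix ρ' ρ (MvPolynomial τ K))
    (hT : ∀ b i j, (T b i j).totalDegree ≤ 1) (hW : ∀ b i j, (W b i j).totalDegree ≤ 1)
    (A : Matrix (Fin m) (Fin m) (MvPolynomial (Fin n × Fin n) K))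
    (hA : ∀ i j, (A i j).totalDegree ≤ 1) (i j) : (resM E T W A i j).totalDegree ≤ 1 :=
  (totalDegree_aeval_le' _ (fun _ => big0_totalDegree T W hT hW _ _) _).trans (hA i j)

/-- A determinant of an affine matrix goes to the span of its minors of size `m - D`. -/
theorem Gm_det_mem {n D k m : ℕ} (E : Fin n ≃ ((ρ ⊕ ρ') × Fin D) ⊕ Fin k) (r c : Fin D → ρ)
    (T : Fin D → Matrix ρ ρ' (MvPolynomial τ K)) (W : Fin D → Matrix ρ' ρ (MvPolynomial τ K))
    (hT : ∀ b i j, (T b i j).totalDegree ≤ 1) (hW : ∀ b i j, (W b i j).totalDegree ≤ 1)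
    (A : Matrix (Fin m) (Fin m) (MvPolynomial (Fin n × Fin n) K))
    (hA : ∀ i j, (A i j).totalDegree ≤ 1) :
    Gm E r c T W A.det ∈ Mn K (resM E T W A) (m - D) := by
  set f1 : Fin n × Fin n → MvPolynomial (τ ⊕ Fin D) K :=
    fun p => bigX (k := k) r c T W (E p.1) (E p.2) with hf1
  set f0 : Fin n × Fin n → MvPolynomial τ K := fun p => big0 (k := k) T W (E p.1) (E p.2) with hf0
  set φ1 : MvPolynomial (Fin n × Fin n) K →ₐ[K] MvPolynomial (τ ⊕ Fin D) K := aeval f1 with hφ1
  set φ0 : MvPolynomial (Fin n × Fin n) K →ₐ[K] MvPolynomial τ K := aeval f0 with hφ0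
  have hcomp : ∀ p, eps K τ D (φ1 p) = φ0 p := by
    intro p
    have h1 : (eps K τ D).comp φ1 = φ0 := by
      refine MvPolynomial.algHom_ext fun q => ?_
      rw [AlgHom.comp_apply, hφ1, hφ0, aeval_X, aeval_X, hf1, hf0]
      exact eps_bigX r c T W _ _
    exact congrArg (fun φ => φ p) h1
  have h6 : iter (List.finRange D) (φ1 A.det) ∈ Mn K (A.map φ1) (m - D) := by
    have h7 := iter_mem (List.finRange D) (A.map φ1) (fun a b =>
      (totalDegree_aeval_le' f1 (fun q => bigX_totalDegree r c T W hT hW _ _) _).trans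
        (hA a b)) (det_mem_Mn (K := K) (A.map φ1))
    rw [List.length_finRange] at h7
    rw [AlgHom.map_det]
    exact h7
  have h8 := map_Mn (eps K τ D) _ h6
  have h9 : (A.map φ1).map (eps K τ D) = A.map φ0 := by
    ext a b
    simp only [Matrix.map_apply]
    rw [hcomp]
  rw [h9] at h8
  exact h8

/-- The permanent of the block matrix with variables in the corners. -/
theorem perm_bigX [Fintype ρ] [Fintype ρ'] {D k : ℕ} (e e' : Fin D → Option ρ' ≃ ρ)
    (T : Fin D → Matrix ρ ρ' (MvPolynomial τ K)) (W : Fin D → Matrix ρ' ρ (MvPolynomial τ K)) :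
    (bigX (k := k) (fun b => e b none) (fun b => e' b none) T W).permanent =
      (∏ b, X (Sum.inr b)) * rename Sum.inl
        (∏ b, (((T b).submatrix (fun i => e b (some i)) id).permanent *
          ((W b).submatrix id fun j => e' b (some j)).permanent)) := by
  classical
  rw [bigX, perm_bigM]
  have h3 : ∀ b, (pairM (e b none) (e' b none) (X (Sum.inr b) : MvPolynomial (τ ⊕ Fin D) K)
      ((T b).map (rename Sum.inl)) ((W b).map (rename Sum.inl))).permanent =
      X (Sum.inr b) * rename Sum.inl
        (((T b).submatrix (fun i => e b (some i)) id).permanent *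
          ((W b).submatrix id fun j => e' b (some j)).permanent) := by
    intro b
    rw [perm_pairM, map_mul]
    congr 2
    · simp [Matrix.permanent, map_sum, map_prod]
    · simp [Matrix.permanent, map_sum, map_prod]
  rw [Finset.prod_congr rfl fun b _ => h3 b, Finset.prod_mul_distrib, ← map_prod]

/-- The permanent goes to the product of the block subpermanents. -/
theorem Gm_perm [Fintype ρ] [Fintype ρ'] {n D k : ℕ}
    (E : Fin n ≃ ((ρ ⊕ ρ') × Fin D) ⊕ Fin k) (e e' : Fin D → Option ρ' ≃ ρ)
    (T : Fin D → Matrix ρ ρ' (MvPolynomial τ K)) (W : Fin D → Matrix ρ' ρ (MvPolynomial τ K)) :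
    Gm E (fun b => e b none) (fun b => e' b none) T W (Matrix.of fun i j : Fin n =>
      (X (i, j) : MvPolynomial (Fin n × Fin n) K)).permanent =
      ∏ b, (((T b).submatrix (fun i => e b (some i)) id).permanent *
        ((W b).submatrix id fun j => e' b (some j)).permanent) := by
  classical
  set r : Fin D → ρ := fun b => e b none with hr
  set r' : Fin D → ρ := fun b => e' b none with hr'
  set f1 : Fin n × Fin n → MvPolynomial (τ ⊕ Fin D) K :=
    fun p => bigX (k := k) r r' T W (E p.1) (E p.2) with hf1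
  set G : MvPolynomial τ K := ∏ b, (((T b).submatrix (fun i => e b (some i)) id).permanent *
      ((W b).submatrix id fun j => e' b (some j)).permanent) with hG
  have h1 : aeval f1 (Matrix.of fun i j : Fin n =>
      (X (i, j) : MvPolynomial (Fin n × Fin n) K)).permanent =
      ((List.finRange D).map fun b => (X (Sum.inr b) : MvPolynomial (τ ⊕ Fin D) K)).prod *
        rename Sum.inl G := by
    rw [aeval_perm]
    have h2 : (Matrix.of fun i j => f1 (i, j)) =
        (bigX (k := k) r r' T W).submatrix E E := by ext i j; rfl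
    rw [h2, perm_submatrix, hr, hr', perm_bigX, ← hG, ← List.prod_ofFn]
    congr 1
    simp [List.ofFn_eq_map]
  have h4 : iter (List.finRange D) (aeval f1 (Matrix.of fun i j : Fin n =>
      (X (i, j) : MvPolynomial (Fin n × Fin n) K)).permanent) = rename Sum.inl G := by
    rw [h1]
    exact iter_prod _ (List.nodup_finRange D) _ fun b _ => pderiv_rename_inl b G
  have h5 : Gm E r r' T W (Matrix.of fun i j : Fin n =>
      (X (i, j) : MvPolynomial (Fin n × Fin n) K)).permanent =
      eps K τ D (iter (List.finRange D) (aeval f1 (Matrix.of fun i j : Fin n =>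
      (X (i, j) : MvPolynomial (Fin n × Fin n) K)).permanent)) := rfl
  rw [h5, h4, eps_rename]

end poly

end Pool.Agent.SDet
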