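import Mathlib

/-!
# Permanents of block matrices
-/

set_option autoImplicit false

namespace Pool.Agent.SDet

open Equiv Finset Matrix

variable {R : Type*} [CommRing R]

/-- The permanent is invariant under independent renumberings of rows and columns. -/
theorem perm_submatrix {m n : Type*} [Fintype m] [Fintype n] [DecidableEq m] [DecidableEq n]
    (e f : m ≃ n) (M : Matrix n n R) : (M.submatrix e f).permanent = M.permanent := by
  unfold Matrix.permanent
  refine Fintype.sum_equiv (Equiv.equivCongr f e) _ _ fun σ => ?_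
  rw [← Equiv.prod_comp f]
  refine Finset.prod_congr rfl fun i _ => ?_
  simp [Equiv.equivCongr]

/-- The permanent of a block triangular matrix. -/
theorem perm_fromBlocks {m n : Type*} [Fintype m] [Fintype n] [DecidableEq m] [DecidableEq n]
    (A : Matrix m m R) (B : Matrix m n R) (D : Matrix n n R) :
    (Matrix.fromBlocks A B 0 D).permanent = A.permanent * D.permanent := by
  classical
  unfold Matrix.permanent
  rw [sum_mul_sum, ← Fintype.sum_prod_type']
  symm
  refine Fintype.sum_of_injective (fun τ : Perm m × Perm n => Perm.sumCongr τ.1 τ.2)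
    ?_ _ _ ?_ ?_
  · intro σ₁ σ₂ h
    have h2 : ∀ x, Perm.sumCongr σ₁.fst σ₁.snd x = Perm.sumCongr σ₂.fst σ₂.snd x :=
      DFunLike.congr_fun h
    simp only [Sum.map_inr, Sum.map_inl, Perm.sumCongr_apply, Sum.forall, Sum.inl.injEq,
      Sum.inr.injEq] at h2
    ext x
    · exact h2.left x
    · exact h2.right x
  · intro σ hσ
    by_contra hne
    apply hσ
    have h3 : Set.MapsTo σ (Set.range Sum.inl) (Set.range Sum.inl) := by
      rintro _ ⟨i, rfl⟩
      rcases hs : σ (Sum.inl i) with k | k
      · exact ⟨k, rfl⟩
      · exfalso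
        refine hne (Finset.prod_eq_zero (Finset.mem_univ (Sum.inl i)) ?_)
        rw [hs, fromBlocks_apply₂₁, Matrix.zero_apply]
    obtain ⟨⟨τ1, τ2⟩, hτ⟩ := Equiv.Perm.mem_sumCongrHom_range_of_perm_mapsTo_inl h3
    exact ⟨(τ1, τ2), hτ⟩
  · rintro ⟨τ1, τ2⟩
    rw [Fintype.prod_sum_type]
    simp

/-- The permanent of a block diagonal matrix. -/
theorem perm_blockDiagonal {m o : Type*} [Fintype m] [Fintype o] [DecidableEq m] [DecidableEq o]
    (M : o → Matrix m m R) : (blockDiagonal M).permanent = ∏ k, (M k).permanent := by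
  classical
  unfold Matrix.permanent
  rw [Finset.prod_univ_sum, Fintype.piFinset_univ]
  symm
  refine Fintype.sum_of_injective (fun τ : o → Perm m => prodCongrLeft τ) ?_ _ _ ?_ ?_
  · intro σ σ' h
    funext k
    ext x
    have h2 := DFunLike.congr_fun h (x, k)
    simp only [prodCongrLeft_apply, Prod.mk_inj] at h2
    exact h2.1
  · intro σ hσ
    by_contra hne
    apply hσ
    have h1 : ∀ x, (σ x).2 = x.2 := by
      intro x
      by_contra hx
      refine hne (Finset.prod_eq_zero (Finset.mem_univ x) ?_)
      rw [blockDiagonal_apply]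
      rw [if_neg hx]
    have h2 : ∀ x, (σ.symm x).2 = x.2 := fun x => by
      simpa [eq_comm] using h1 (σ.symm x)
    have mk_apply_eq : ∀ k x, ((σ (x, k)).fst, k) = σ (x, k) := by
      intro k x
      ext
      · simp only
      · simp only [h1]
    have mk_inv_apply_eq : ∀ k x, ((σ.symm (x, k)).fst, k) = σ.symm (x, k) := by
      intro k x
      ext
      · simp only
      · simp only [h2]
    refine ⟨fun k => ⟨fun x => (σ (x, k)).fst, fun x => (σ.symm (x, k)).fst, ?_, ?_⟩, ?_⟩
    · intro x
      simp [mk_apply_eq]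
    · intro x
      simp [mk_inv_apply_eq]
    · ext ⟨k, x⟩
      · simp only [coe_fn_mk, prodCongrLeft_apply]
      · simp only [prodCongrLeft_apply, h1]
  · intro σ
    rw [← Finset.univ_product_univ, Finset.prod_product_right]
    simp [blockDiagonal_apply_eq]

end Pool.Agent.SDet
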